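import Mathlib

/-! Dominating numbers at singular cardinals of countable cofinality: hitting families. -/

open Cardinal Set

noncomputable section

universe u

namespace H624DM

/-- hitting families -/
def Hit (m : Cardinal.{u}) (β : Type u) (σ : Cardinal.{u}) : Prop :=
  ∃ C : Set (Set β), #C ≤ m ∧ (∀ A ∈ C, A.Countable) ∧
    ∀ X : Set β, σ ≤ #X → ∃ A ∈ C, (X ∩ A).Infinite

theorem Hit.mono {m : Cardinal.{u}} {β : Type u} {σ τ : Cardinal.{u}} (h : Hit m β σ)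
    (hst : σ ≤ τ) : Hit m β τ := by
  obtain ⟨C, h1, h2, h3⟩ := h
  exact ⟨C, h1, h2, fun X hX => h3 X (hst.trans hX)⟩

theorem hit_vac {m : Cardinal.{u}} {β : Type u} {σ : Cardinal.{u}} (h : #β < σ) : Hit m β σ := by
  refine ⟨∅, by simp, by simp, fun X hX => ?_⟩
  exact absurd (hX.trans (mk_set_le X)) (not_le.2 h)

theorem hit_of_inj {m : Cardinal.{u}} {β γ : Type u} {σ : Cardinal.{u}} (e : β ↪ γ)
    (h : Hit m γ σ) : Hit m β σ := by
  obtain ⟨C, h1, h2, h3⟩ := h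
  refine ⟨(fun A => e ⁻¹' A) '' C, mk_image_le.trans h1, ?_, fun X hX => ?_⟩
  · rintro _ ⟨A, hA, rfl⟩
    exact (h2 A hA).preimage e.injective
  · obtain ⟨A, hA, hi⟩ := h3 (e '' X) (by rwa [mk_image_eq e.injective])
    refine ⟨_, ⟨A, hA, rfl⟩, ?_⟩
    have : e '' X ∩ A = e '' (X ∩ e ⁻¹' A) := by
      rw [image_inter_preimage]
    rw [this] at hi
    exact Set.Infinite.of_image _ hi

theorem hit_pow {m : Cardinal.{u}} {β : Type u} (h : #β ^ ℵ₀ ≤ m) :
    Hit m β ℵ₀ := by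
  rcases isEmpty_or_nonempty β with hb | hb
  · exact hit_vac (by simp [aleph0_pos])
  refine ⟨(fun f : ℕ → β => range f) '' univ, ?_, ?_, fun X hX => ?_⟩
  · have h1 : #((fun f : ℕ → β => range f) '' univ) ≤ #(ℕ → β) := by
      exact mk_image_le.trans (mk_set_le _)
    refine h1.trans ?_
    simpa using h
  · rintro _ ⟨f, -, rfl⟩
    exact countable_range f
  · have hX' : X.Infinite := by
      rw [← Set.infinite_coe_iff]
      exact Cardinal.infinite_iff.2 hX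
    obtain ⟨f⟩ := Set.Infinite.natEmbedding X hX' |> fun f => (⟨f⟩ : Nonempty (ℕ ↪ X))
    refine ⟨_, ⟨fun n => (f n : β), mem_univ _, rfl⟩, ?_⟩
    have : range (fun n => (f n : β)) ⊆ X ∩ range (fun n => (f n : β)) := by
      rintro _ ⟨n, rfl⟩
      exact ⟨(f n).2, n, rfl⟩
    refine Set.Infinite.mono this ?_
    exact Set.infinite_range_of_injective (fun a b hab => f.injective (Subtype.ext hab))

/-- the main counting lemma -/
theorem count {α β : Type u} {ρ : Cardinal.{u}} (hc : continuum ≤ #α) (hH : Hit #α β (Order.succ ρ))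
    (D : Set (α → ℕ)) (hD : ∀ g : α → ℕ, ∃ f ∈ D, ∀ x, g x ≤ f x) :
    (2 : Cardinal.{u}) ^ #β ≤ #D * 2 ^ ρ := by
  classical
  obtain ⟨C, hC, hCc, hhit⟩ := hH
  -- the index set
  let J := Σ A : C, (ℕ → Set (A : Set β))
  have hα : ℵ₀ ≤ #α := aleph0_le_continuum.trans hc
  have hJ : #J ≤ #α := by
    have h1 : #J = Cardinal.sum (fun A : C => #(ℕ → Set (A : Set β))) := mk_sigma _
    have h2 : ∀ A : C, #(ℕ → Set (A : Set β)) ≤ continuum := by
      intro A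
      have hA : #(A : Set β) ≤ ℵ₀ := (hCc A.1 A.2).le_aleph0
      have h3 : #(ℕ → Set (A : Set β)) = (2 ^ #(A : Set β)) ^ ℵ₀ := by
        simp
      rw [h3]
      calc ((2 : Cardinal.{u}) ^ #(A : Set β)) ^ ℵ₀ ≤ (2 ^ ℵ₀) ^ ℵ₀ :=
            power_le_power_right (power_le_power_left two_ne_zero hA)
        _ = continuum := by
            rw [← power_mul, aleph0_mul_aleph0, two_power_aleph0]
    calc #J = Cardinal.sum (fun A : C => #(ℕ → Set (A : Set β))) := h1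
      _ ≤ Cardinal.sum (fun _ : C => (continuum : Cardinal.{u})) := sum_le_sum _ _ h2
      _ = #C * continuum := by simp
      _ ≤ #α * #α := mul_le_mul' hC hc
      _ = #α := mul_eq_self hα
  obtain ⟨e⟩ : Nonempty (J ↪ α) := by
    rwa [Cardinal.le_def] at hJ
  -- the functions
  let tr : (A : C) → Set β → Set (A : Set β) := fun A S => Subtype.val ⁻¹' S
  let g' : Set β → J → ℕ := fun S j => sInf {n | j.2 n = tr j.1 S}
  let g : Set β → α → ℕ := fun S => Function.extend e (g' S) 0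
  have hge : ∀ S j, g S (e j) = g' S j := fun S j => e.injective.extend_apply _ _ _
  let 𝒮 : (α → ℕ) → Set (Set β) := fun f => {S | ∀ x, g S x ≤ f x}
  -- finitely many traces
  have hfin : ∀ (f : α → ℕ) (A : C), (tr A '' 𝒮 f).Finite := by
    intro f A
    by_contra hinf
    let T : ℕ ↪ tr A '' 𝒮 f := Set.Infinite.natEmbedding _ hinf
    let j : J := ⟨A, fun n => (T n : Set (A : Set β))⟩
    obtain ⟨S, hS, hST⟩ := (T (f (e j) + 1)).2
    have h1 : g S (e j) ≤ f (e j) := hS _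
    rw [hge] at h1
    have h2 : {n | j.2 n = tr j.1 S} = {f (e j) + 1} := by
      ext n
      simp only [mem_ofPred_eq, mem_singleton_iff]
      constructor
      · intro hn
        have h3 : ((T n : Set (A : Set β))) = T (f (e j) + 1) := hn.trans hST
        exact T.injective (Subtype.ext h3)
      · rintro rfl
        exact hST.symm
    have h3 : g' S j = f (e j) + 1 := by
      change sInf {n | j.2 n = tr j.1 S} = _
      rw [h2, csInf_singleton]
    omega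
  have hcard : ∀ f : α → ℕ, #(𝒮 f) ≤ 2 ^ ρ := by
    intro f
    let F : β → Set (Set β) := fun x => {S | S ∈ 𝒮 f ∧ x ∈ S}
    obtain ⟨X, -, hXb⟩ := Set.exists_subset_bijOn (univ : Set β) F
    have hXρ : #X ≤ ρ := by
      by_contra hlt
      rw [not_le] at hlt
      obtain ⟨A, hA, hXA⟩ := hhit X (Order.succ_le_of_lt hlt)
      apply hXA
      have hFA : (F '' A).Finite := by
        have hpw : (𝒫 (tr ⟨A, hA⟩ '' 𝒮 f)).Finite := (hfin f ⟨A, hA⟩).finite_subsets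
        refine (hpw.image (fun U => {S | S ∈ 𝒮 f ∧ tr ⟨A, hA⟩ S ∈ U})).subset ?_
        rintro _ ⟨x, hx, rfl⟩
        refine ⟨{t | t ∈ tr ⟨A, hA⟩ '' 𝒮 f ∧ (⟨x, hx⟩ : A) ∈ t}, fun t ht => ht.1, ?_⟩
        ext S
        simp only [mem_ofPred_eq, F, tr]
        constructor
        · rintro ⟨h1, -, h2⟩
          exact ⟨h1, h2⟩
        · rintro ⟨h1, h2⟩
          exact ⟨h1, ⟨S, h1, rfl⟩, h2⟩
      have hinj : InjOn F (X ∩ A) := hXb.injOn.mono inter_subset_left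
      exact Set.Finite.of_finite_image (hFA.subset (image_mono inter_subset_right)) hinj
    have hinj2 : InjOn (fun S : Set β => (Subtype.val ⁻¹' S : Set X)) (𝒮 f) := by
      intro S hS S' hS' heq
      have key : ∀ S₁ S₂, S₁ ∈ 𝒮 f → S₂ ∈ 𝒮 f →
          (Subtype.val ⁻¹' S₁ : Set X) = Subtype.val ⁻¹' S₂ → S₁ ⊆ S₂ := by
        intro S₁ S₂ h1 h2 h12 x hx
        obtain ⟨y, hy, hyx⟩ := hXb.surjOn ⟨x, mem_univ x, rfl⟩
        have h3 : S₁ ∈ F y := by
          rw [hyx]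
          exact ⟨h1, hx⟩
        have h4 : (⟨y, hy⟩ : X) ∈ (Subtype.val ⁻¹' S₁ : Set X) := h3.2
        rw [h12] at h4
        have h5 : S₂ ∈ F y := ⟨h2, h4⟩
        rw [hyx] at h5
        exact h5.2
      exact Subset.antisymm (key S S' hS hS' heq) (key S' S hS' hS heq.symm)
    calc #(𝒮 f) ≤ #(Set X) := mk_le_of_injective (f := fun S : 𝒮 f =>
            (Subtype.val ⁻¹' (S : Set β) : Set X))
            (fun S S' h => Subtype.ext (hinj2 S.2 S'.2 h))
      _ = 2 ^ #X := mk_set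
      _ ≤ 2 ^ ρ := power_le_power_left two_ne_zero hXρ
  have hcov : (⋃ f : D, 𝒮 f) = (univ : Set (Set β)) := by
    refine eq_univ_of_forall fun S => ?_
    obtain ⟨f, hf, hfg⟩ := hD (g S)
    exact mem_iUnion.2 ⟨⟨f, hf⟩, hfg⟩
  calc (2 : Cardinal.{u}) ^ #β = #(Set β) := mk_set.symm
    _ = #(univ : Set (Set β)) := mk_univ.symm
    _ = #(⋃ f : D, 𝒮 f : Set (Set β)) := by rw [hcov]
    _ ≤ Cardinal.sum (fun f : D => #(𝒮 f)) := mk_iUnion_le_sum_mk
    _ ≤ Cardinal.sum (fun _ : D => (2 : Cardinal.{u}) ^ ρ) := sum_le_sum _ _ (fun f => hcard f)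
    _ = #D * 2 ^ ρ := by simp


theorem mk_preimage_val {β : Type u} (I X : Set β) :
    #(Subtype.val ⁻¹' X : Set I) = #(X ∩ I : Set β) := by
  rw [← mk_image_eq (f := (Subtype.val : I → β)) Subtype.val_injective, Subtype.image_preimage_coe,
    inter_comm]

/-- union of initial segments -/
theorem hit_segments {m : Cardinal.{u}} {β : Type u} [LinearOrder β] {σ τ : Cardinal.{u}}
    (hm : ℵ₀ ≤ m) (hβ : #β ≤ m) (h : ∀ i : β, Hit m (Iio i) σ)
    (hX : ∀ X : Set β, τ ≤ #X → ∃ i : β, σ ≤ #(X ∩ Iio i : Set β)) : Hit m β τ := by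
  choose C h1 h2 h3 using h
  refine ⟨⋃ i, (fun A : Set (Iio i) => (Subtype.val '' A : Set β)) '' C i, ?_, ?_, ?_⟩
  · calc #(⋃ i, (fun A : Set (Iio i) => (Subtype.val '' A : Set β)) '' C i : Set (Set β))
        ≤ Cardinal.sum (fun i => #((fun A : Set (Iio i) => (Subtype.val '' A : Set β)) '' C i)) :=
          mk_iUnion_le_sum_mk
      _ ≤ Cardinal.sum (fun _ : β => m) := sum_le_sum _ _ (fun i => mk_image_le.trans (h1 i))
      _ = #β * m := by simp
      _ ≤ m * m := mul_le_mul' hβ le_rfl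
      _ = m := mul_eq_self hm
  · rintro A hA
    obtain ⟨i, A', hA', rfl⟩ := mem_iUnion.1 hA
    exact (h2 i A' hA').image _
  · intro X hXσ
    obtain ⟨i, hi⟩ := hX X hXσ
    obtain ⟨A, hA, hinf⟩ := h3 i (Subtype.val ⁻¹' X) (by rwa [mk_preimage_val])
    refine ⟨Subtype.val '' A, mem_iUnion.2 ⟨i, A, hA, rfl⟩, ?_⟩
    have := hinf.image (f := (Subtype.val : Iio i → β)) Subtype.val_injective.injOn
    refine this.mono ?_
    rintro _ ⟨x, ⟨hx1, hx2⟩, rfl⟩
    exact ⟨hx1, x, hx2, rfl⟩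

theorem pig1 {β : Type u} [LinearOrder β] {σ : Cardinal.{u}} (h : σ < Order.cof β) (X : Set β)
    (hX : σ ≤ #X) : ∃ i, σ ≤ #(X ∩ Iio i : Set β) := by
  obtain ⟨X', hX', rfl⟩ := le_mk_iff_exists_subset.1 hX
  have hnc : ¬ IsCofinal X' := fun hc => (Order.cof_le hc).not_gt h
  simp only [IsCofinal, not_forall, not_exists, not_and, not_le] at hnc
  obtain ⟨i, hi⟩ := hnc
  exact ⟨i, mk_le_mk_of_subset (fun x hx => ⟨hX' hx, hi x hx⟩)⟩

theorem pig2 {β : Type u} [LinearOrder β] {ρ : Cardinal.{u}} (hρ : ℵ₀ ≤ ρ) (h : Order.cof β ≤ ρ)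
    (X : Set β) (hX : Order.succ ρ ≤ #X) : ∃ i, Order.succ ρ ≤ #(X ∩ Iio i : Set β) := by
  by_contra hcon
  simp only [not_exists, Order.succ_le_iff, not_lt] at hcon
  obtain ⟨S, hS, hScard⟩ := Order.exists_cof_eq β
  have hsub : X ⊆ ⋃ s : S, (X ∩ Iio (s : β)) ∪ {(s : β)} := by
    intro x hx
    obtain ⟨s, hs, hxs⟩ := hS x
    refine mem_iUnion.2 ⟨⟨s, hs⟩, ?_⟩
    rcases hxs.lt_or_eq with h1 | h1
    · exact Or.inl ⟨hx, h1⟩
    · exact Or.inr h1
  have h1 : #X ≤ ρ := by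
    calc #X ≤ #(⋃ s : S, (X ∩ Iio (s : β)) ∪ {(s : β)} : Set β) := mk_le_mk_of_subset hsub
      _ ≤ Cardinal.sum (fun s : S => #((X ∩ Iio (s : β)) ∪ {(s : β)} : Set β)) :=
          mk_iUnion_le_sum_mk
      _ ≤ Cardinal.sum (fun _ : S => ρ) := by
          refine sum_le_sum _ _ fun s => ?_
          calc #((X ∩ Iio (s : β)) ∪ {(s : β)} : Set β) ≤ #(X ∩ Iio (s : β) : Set β) +
                #({(s : β)} : Set β) := mk_union_le _ _
            _ ≤ ρ + ρ := add_le_add (hcon s) (by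
                rw [mk_singleton]; exact one_le_aleph0.trans hρ)
            _ = ρ := add_eq_self hρ
      _ = #S * ρ := by simp
      _ ≤ ρ * ρ := mul_le_mul' (hScard.trans_le h) le_rfl
      _ = ρ := mul_eq_self hρ
  exact (Order.succ_le_iff.1 hX).not_ge h1

theorem pig0 {β : Type u} [LinearOrder β] (X : Set β) (hX : Order.succ ℵ₀ ≤ #X) :
    ∃ i, ℵ₀ ≤ #(X ∩ Iio i : Set β) := by
  by_contra hcon
  simp only [not_exists, not_le, lt_aleph0_iff_set_finite] at hcon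
  have h1 : #X ≤ ℵ₀ := by
    rw [mk_le_aleph0_iff]
    refine Function.Injective.countable (f := fun x : X => (X ∩ Iio (x : β)).ncard) ?_
    have key : StrictMono (fun x : X => (X ∩ Iio (x : β)).ncard) := by
      intro x y hxy
      refine Set.ncard_lt_ncard ?_ (hcon y)
      refine ⟨fun z hz => ⟨hz.1, lt_trans hz.2 hxy⟩, fun hsub => ?_⟩
      exact lt_irrefl _ (hsub (⟨x.2, hxy⟩ : (x : β) ∈ X ∩ Iio (y : β))).2
    exact key.injective
  exact (Order.succ_le_iff.1 hX).not_ge h1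

/-- existence of hitting families -/
theorem hit_main {m : Cardinal.{u}} (hc : continuum ≤ m) (lam : Cardinal.{u}) :
    continuum ≤ lam → lam ≤ m → (∀ κ ≤ lam, κ = ℵ_ κ.ord → ∀ ν < κ, ν ^ ℵ₀ ≤ m) →
      ∃ ρ < lam, Hit m lam.ord.ToType (Order.succ ρ) := by
  have hm : ℵ₀ ≤ m := aleph0_le_continuum.trans hc
  induction lam using WellFoundedLT.induction with
  | ind lam ih =>
  intro h1 h2 hfix
  have hωlam : ℵ₀ < lam := aleph0_lt_continuum.trans_le h1
  by_cases hpow : lam ^ ℵ₀ ≤ m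
  · exact ⟨ℵ₀, hωlam, (hit_pow (by rwa [mk_ord_toType])).mono (Order.le_succ _)⟩
  by_cases hfp : lam = ℵ_ lam.ord
  · refine ⟨ℵ₀, hωlam, hit_segments hm (by rwa [mk_ord_toType]) (fun i => ?_) pig0⟩
    exact hit_pow (hfix lam le_rfl hfp _ (mk_Iio_toType_ord_lt i))
  obtain ⟨δ, hδ⟩ := mem_range_aleph_iff.2 hωlam.le
  have hδ1 : δ < lam.ord := by
    have h3 : δ ≤ lam.ord := by
      rw [← hδ, ord_aleph]
      exact Ordinal.le_omega_self δ
    refine lt_of_le_of_ne h3 fun h4 => hfp ?_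
    rw [← h4, hδ]
  have hδ2 : δ.card < lam := lt_ord.1 hδ1
  have hclam : continuum < lam := by
    refine lt_of_le_of_ne h1 fun h4 => hpow ?_
    rw [← h4, continuum_power_aleph0]
    exact hc
  set ρ₀ := max δ.card continuum with hρ₀
  have hρlam : ρ₀ < lam := max_lt hδ2 hclam
  have hρc : continuum ≤ ρ₀ := le_max_right _ _
  have hρω : ℵ₀ ≤ ρ₀ := aleph0_le_continuum.trans hρc
  obtain ⟨ρ, hρ, hH⟩ := ih ρ₀ hρlam hρc (hρlam.le.trans h2)
    (fun κ hκ => hfix κ (hκ.trans hρlam.le))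
  have hsl : Order.succ ρ₀ ≤ lam := Order.succ_le_of_lt hρlam
  have hA : Hit m (Order.succ ρ₀).ord.ToType (Order.succ ρ₀) := by
    refine Hit.mono (σ := Order.succ ρ) ?_ (Order.succ_le_succ hρ.le)
    refine hit_segments hm (by rw [mk_ord_toType]; exact hsl.trans h2) (σ := Order.succ ρ)
      (fun i => ?_) ?_
    · have h5 : #(Iio i) ≤ #(ρ₀.ord.ToType) := by
        rw [mk_ord_toType]
        exact Order.le_of_lt_succ (mk_Iio_toType_ord_lt i)
      obtain ⟨e⟩ := Cardinal.le_def _ _ |>.1 h5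
      exact hit_of_inj e hH
    · refine pig1 ?_
      rw [Ordinal.cof_toType, (isRegular_succ hρω).cof_ord]
      exact (Order.succ_le_of_lt hρ).trans_lt (Order.lt_succ _)
  have hB : ∀ ν : Cardinal.{u}, Order.succ ρ₀ ≤ ν → ν ≤ lam →
      Hit m ν.ord.ToType (Order.succ ρ₀) := by
    intro ν
    induction ν using WellFoundedLT.induction with
    | ind ν ihν =>
    intro h5 h6
    rcases h5.eq_or_lt with h7 | h7
    · rw [← h7]
      exact hA
    refine hit_segments hm (by rw [mk_ord_toType]; exact h6.trans h2) (σ := Order.succ ρ₀)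
      (fun i => ?_) ?_
    · rcases lt_or_ge (#(Iio i)) (Order.succ ρ₀) with h8 | h8
      · exact hit_vac h8
      · have h9 := ihν (#(Iio i)) (mk_Iio_toType_ord_lt i) h8 ((mk_Iio_toType_ord_lt i).le.trans h6)
        obtain ⟨e⟩ := Cardinal.le_def _ _ |>.1 (mk_ord_toType (#(Iio i))).ge
        exact hit_of_inj e h9
    · obtain ⟨η, hη⟩ := mem_range_aleph_iff.2 ((hρω.trans (Order.le_succ _)).trans h5)
      have hηδ : η ≤ δ := by
        rw [← aleph_le_aleph, hη, hδ]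
        exact h6
      have hcof : Order.cof ν.ord.ToType = (Ordinal.omega η).cof := by
        rw [Ordinal.cof_toType, ← hη, ord_aleph]
      rcases Ordinal.zero_or_succ_or_isSuccLimit η with h8 | ⟨a, h8⟩ | h8
      · exfalso
        rw [h8, aleph_zero] at hη
        rw [← hη] at h7
        exact (h7.trans_le hρω).not_ge (Order.le_succ _)
      · refine pig1 ?_
        have h9 : (Ordinal.omega η).cof = ν := by
          rw [← hη, ← h8, ← Ordinal.add_one_eq_succ, cof_omega_add_one]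
        rw [hcof, h9]
        exact h7
      · refine pig2 hρω ?_
        rw [hcof, Ordinal.cof_omega h8]
        exact (Ordinal.cof_le_card η).trans ((Ordinal.card_le_card hηδ).trans (le_max_left _ _))
  exact ⟨ρ₀, hρlam, hB lam hsl le_rfl⟩


theorem le_of_le_mul {a b x : Cardinal.{u}} (ha : ℵ₀ ≤ a) (h : a ≤ b * x) (hx : x < a) :
    a ≤ b := by
  by_contra hlt
  exact (mul_lt_of_lt ha (not_le.1 hlt) hx).not_ge h

theorem big {α : Type u} (hc : continuum ≤ #α)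
    (D : Set (α → ℕ)) (hD : ∀ g : α → ℕ, ∃ f ∈ D, ∀ x, g x ≤ f x) (lam : Cardinal.{u}) :
    continuum ≤ lam → lam ≤ #α → (∀ κ ≤ lam, κ = ℵ_ κ.ord → ∀ ν < κ, ν ^ ℵ₀ ≤ #α) →
      (2 : Cardinal.{u}) ^ lam ≤ #D := by
  induction lam using WellFoundedLT.induction with
  | ind lam ih =>
  intro h1 h2 hfix
  have h2lam : ℵ₀ ≤ (2 : Cardinal.{u}) ^ lam :=
    (aleph0_le_continuum.trans h1).trans (cantor lam).le
  by_cases hlc : lam = continuum
  · have hH : Hit #α lam.ord.ToType (Order.succ ℵ₀) := by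
      refine (hit_pow ?_).mono (Order.le_succ _)
      rw [mk_ord_toType, hlc, continuum_power_aleph0]
      exact hc
    have h3 := count hc hH D hD
    rw [mk_ord_toType, two_power_aleph0] at h3
    refine le_of_le_mul h2lam h3 ?_
    rw [← hlc]
    exact cantor lam
  · have hlt : continuum < lam := lt_of_le_of_ne h1 (fun h => hlc h.symm)
    obtain ⟨ρ, hρ, hH⟩ := hit_main hc lam h1 h2 hfix
    have h3 := count hc hH D hD
    rw [mk_ord_toType] at h3
    have h4 := ih (max ρ continuum) (max_lt hρ hlt) (le_max_right _ _)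
      ((max_lt hρ hlt).le.trans h2) (fun κ hκ => hfix κ (hκ.trans (max_lt hρ hlt).le))
    have h5 : (2 : Cardinal.{u}) ^ ρ ≤ #D :=
      (power_le_power_left two_ne_zero (le_max_left _ _)).trans h4
    have h6 : ℵ₀ ≤ #D :=
      ((aleph0_le_continuum.trans (le_max_right ρ _)).trans (cantor _).le).trans h4
    exact h3.trans ((mul_le_mul' le_rfl h5).trans (mul_eq_self h6).le)

theorem exists_Iio {c ν : Cardinal.{u}} (h : ν < c) : ∃ i : c.ord.ToType, #(Iio i) = ν := by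
  have h1 : ν.ord < Ordinal.type (α := c.ord.ToType) (· < ·) := by
    rw [Ordinal.type_toType]
    exact ord_lt_ord.2 h
  obtain ⟨i, hi⟩ := Ordinal.typein_surj _ h1
  refine ⟨i, ?_⟩
  have h2 := Ordinal.card_typein (r := ((· < ·) : c.ord.ToType → c.ord.ToType → Prop)) i
  rw [hi, card_ord] at h2
  exact h2.symm

/-- From domination up to fewer than `μ` points to domination everywhere. -/
theorem reduce {α : Type u} (hα : ℵ₀ < #α) (hcof : (#α).ord.cof = ℵ₀) (D : Set (α → ℕ))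
    (hD : ∀ g : α → ℕ, ∃ f ∈ D, #{x // f x ≤ g x} < #α) :
    ∃ D' : Set (α → ℕ), #D' ≤ #D * ℵ₀ ∧ ∀ g : α → ℕ, ∃ f ∈ D', ∀ x, g x ≤ f x := by
  classical
  obtain ⟨e⟩ : Nonempty (α ≃ α × α) := by
    rw [← Cardinal.eq, mk_prod, lift_id, mul_eq_self hα.le]
  obtain ⟨S, hS, hScard⟩ := Order.exists_cof_eq (#α).ord.ToType
  rw [Ordinal.cof_toType, hcof] at hScard
  let F : (α → ℕ) → S → α → ℕ := fun f s ξ =>
    sInf {n | #(Iio (s : (#α).ord.ToType)) < #{η // f (e.symm (ξ, η)) ≤ n}}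
  have hne : ∀ (f : α → ℕ) (s : S) (ξ : α),
      {n | #(Iio (s : (#α).ord.ToType)) < #{η // f (e.symm (ξ, η)) ≤ n}}.Nonempty := by
    intro f s ξ
    by_contra hcon
    rw [Set.not_nonempty_iff_eq_empty, Set.eq_empty_iff_forall_notMem] at hcon
    have h1 : ∀ n : ℕ, #{η // f (e.symm (ξ, η)) ≤ n} ≤ #(Iio (s : (#α).ord.ToType)) :=
      fun n => not_lt.1 (hcon n)
    have h2 : (⋃ n : ULift.{u} ℕ, {η | f (e.symm (ξ, η)) ≤ n.down}) = (univ : Set α) :=
      eq_univ_of_forall fun η => mem_iUnion.2 ⟨⟨f (e.symm (ξ, η))⟩, le_refl (f (e.symm (ξ, η)))⟩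
    have h3 : #α ≤ ℵ₀ * #(Iio (s : (#α).ord.ToType)) := by
      calc #α = #(univ : Set α) := mk_univ.symm
        _ = #(⋃ n : ULift.{u} ℕ, {η | f (e.symm (ξ, η)) ≤ n.down} : Set α) := by rw [h2]
        _ ≤ Cardinal.sum (fun n : ULift.{u} ℕ => #{η | f (e.symm (ξ, η)) ≤ n.down}) :=
            mk_iUnion_le_sum_mk
        _ ≤ Cardinal.sum (fun _ : ULift.{u} ℕ => #(Iio (s : (#α).ord.ToType))) :=
            sum_le_sum _ _ (fun n => h1 n.down)
        _ = ℵ₀ * #(Iio (s : (#α).ord.ToType)) := by simp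
    exact (mul_lt_of_lt hα.le hα (mk_Iio_toType_ord_lt _)).not_ge h3
  refine ⟨(fun p : (α → ℕ) × S => F p.1 p.2) '' (D ×ˢ Set.univ), ?_, fun g => ?_⟩
  · calc #((fun p : (α → ℕ) × S => F p.1 p.2) '' (D ×ˢ Set.univ)) ≤
          #(D ×ˢ (univ : Set S) : Set ((α → ℕ) × S)) := mk_image_le
      _ = #D * ℵ₀ := by
          rw [mk_congr (Equiv.Set.prod D (univ : Set S)), mk_prod, lift_id, lift_id, mk_univ,
            hScard]
  · obtain ⟨f, hf, hfg⟩ := hD (fun x => g (e x).1)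
    -- choose s
    obtain ⟨s, hs⟩ : ∃ s : S, #{x // f x ≤ g (e x).1} ≤ #(Iio (s : (#α).ord.ToType)) := by
      obtain ⟨i, hi⟩ := exists_Iio hfg
      obtain ⟨s, hs, his⟩ := hS i
      refine ⟨⟨s, hs⟩, ?_⟩
      rw [← hi]
      exact mk_le_mk_of_subset (Iio_subset_Iio his)
    refine ⟨F f s, ⟨(f, s), ⟨hf, mem_univ _⟩, rfl⟩, fun ξ => ?_⟩
    by_contra hcon
    rw [not_le] at hcon
    have h1 := Nat.sInf_mem (hne f s ξ)
    have h2 : #{η // f (e.symm (ξ, η)) ≤ F f s ξ} ≤ #{x // f x ≤ g (e x).1} := by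
      refine mk_le_of_injective (f := fun η : {η // f (e.symm (ξ, η)) ≤ F f s ξ} =>
        (⟨e.symm (ξ, η), ?_⟩ : {x // f x ≤ g (e x).1})) ?_
      · simpa using η.2.trans hcon.le
      · intro a b hab
        exact Subtype.ext (by simpa using hab)
    exact absurd (h2.trans hs) (not_le.2 h1)


/-- the dominating number -/
def dnNat (μ : Cardinal.{u}) : Cardinal.{u} :=
  sInf {κ | ∃ D : Set (μ.out → ℕ), #D = κ ∧
    ∀ g : μ.out → ℕ, ∃ f ∈ D, #{x // f x ≤ g x} < μ}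

theorem exists_dn {μ : Cardinal.{u}} (hμ : ℵ₀ ≤ μ) :
    (∃ D : Set (μ.out → ℕ), #D = dnNat μ ∧
      ∀ g : μ.out → ℕ, ∃ f ∈ D, #{x // f x ≤ g x} < μ) ∧ dnNat μ ≤ 2 ^ μ := by
  have h1 : (2 : Cardinal.{u}) ^ μ ∈ {κ | ∃ D : Set (μ.out → ℕ), #D = κ ∧
      ∀ g : μ.out → ℕ, ∃ f ∈ D, #{x // f x ≤ g x} < μ} := by
    refine ⟨Set.univ, ?_, fun g => ⟨fun x => g x + 1, mem_univ _, ?_⟩⟩
    · have : #(μ.out → ℕ) = ℵ₀ ^ μ := by simp
      rw [mk_univ, this]
      exact power_eq_two_power hμ (by exact_mod_cast (nat_lt_aleph0 2).le) hμ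
    · have : IsEmpty {x // g x + 1 ≤ g x} := ⟨fun x => absurd x.2 (by omega)⟩
      rw [mk_eq_zero]
      exact aleph0_pos.trans_le hμ
  exact ⟨csInf_mem ⟨_, h1⟩, csInf_le' h1⟩

theorem dn_main {μ : Cardinal.{u}} (hcof : μ.ord.cof = ℵ₀) (hμ : ℵ₀ < μ) (lam : Cardinal.{u})
    (hc : continuum ≤ lam) (hlam : lam ≤ μ)
    (hfix : ∀ κ ≤ lam, κ = ℵ_ κ.ord → ∀ ν < κ, ν ^ ℵ₀ ≤ μ) : 2 ^ lam ≤ dnNat μ := by
  obtain ⟨⟨D, hD1, hD2⟩, h3⟩ := exists_dn hμ.le
  obtain ⟨D', hD', hD'2⟩ := reduce (α := μ.out) (by rwa [mk_out]) (by rwa [mk_out]) D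
    (by rwa [mk_out])
  have h4 := big (α := μ.out) (by rw [mk_out]; exact hc.trans hlam) D' hD'2 lam hc
    (by rwa [mk_out]) (by rwa [mk_out])
  have hω : ℵ₀ < (2 : Cardinal.{u}) ^ lam := (aleph0_le_continuum.trans hc).trans_lt (cantor lam)
  exact le_of_le_mul hω.le ((h4.trans hD').trans_eq (by rw [hD1])) hω

theorem dn_hit {μ : Cardinal.{u}} (hcof : μ.ord.cof = ℵ₀) (hμ : ℵ₀ < μ) (hc : continuum ≤ μ)
    (ρ : Cardinal.{u}) (hH : Hit μ μ.out (Order.succ ρ)) :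
    2 ^ μ ≤ dnNat μ * 2 ^ ρ := by
  obtain ⟨⟨D, hD1, hD2⟩, h3⟩ := exists_dn hμ.le
  obtain ⟨D', hD', hD'2⟩ := reduce (α := μ.out) (by rwa [mk_out]) (by rwa [mk_out]) D
    (by rwa [mk_out])
  have h4 := count (α := μ.out) (β := μ.out) (ρ := ρ) (by rwa [mk_out]) (by rwa [mk_out]) D' hD'2
  rw [mk_out] at h4
  have hω : ℵ₀ < (2 : Cardinal.{u}) ^ μ := hμ.trans (cantor μ)
  refine le_of_le_mul (x := ℵ₀) hω.le (h4.trans ?_) hω
  calc #D' * 2 ^ ρ ≤ (#D * ℵ₀) * 2 ^ ρ := mul_le_mul' hD' le_rfl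
    _ = dnNat μ * 2 ^ ρ * ℵ₀ := by rw [hD1]; ring

/-- the cofinality of the dominating number -/
theorem everywhere_cof {α : Type u} (hα : ℵ₀ ≤ #α) (d : Cardinal.{u})
    (D : Set (α → ℕ)) (hDd : #D = d) (hD : ∀ g : α → ℕ, ∃ f ∈ D, ∀ x, g x ≤ f x)
    (hmin : ∀ E : Set (α → ℕ), (∀ g : α → ℕ, ∃ f ∈ E, ∀ x, g x ≤ f x) → d ≤ #E) :
    #α < d.ord.cof := by
  classical
  have hd : ℵ₀ ≤ d := by
    by_contra hlt
    rw [not_le, ← hDd, lt_aleph0_iff_set_finite] at hlt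
    obtain ⟨f, hf, hfg⟩ := hD (fun x => (∑ f ∈ hlt.toFinset, f x) + 1)
    obtain ⟨x⟩ : Nonempty α := mk_ne_zero_iff.1 (aleph0_pos.trans_le hα).ne'
    have h1 := hfg x
    have h2 : f x ≤ ∑ f ∈ hlt.toFinset, f x :=
      Finset.single_le_sum (f := fun f : α → ℕ => f x) (fun _ _ => Nat.zero_le _)
        (hlt.mem_toFinset.2 hf)
    omega
  by_contra hcon
  rw [not_lt] at hcon
  obtain ⟨S, hS, hScard⟩ := Order.exists_cof_eq d.ord.ToType
  rw [Ordinal.cof_toType] at hScard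
  have hSα : #(S × α) ≤ #α := by
    rw [mk_prod, lift_id, lift_id, hScard]
    calc d.ord.cof * #α ≤ #α * #α := mul_le_mul' hcon le_rfl
      _ = #α := mul_eq_self hα
  obtain ⟨e⟩ := Cardinal.le_def _ _ |>.1 hSα
  obtain ⟨w⟩ : Nonempty (D ≃ d.ord.ToType) := by
    rw [← Cardinal.eq, mk_ord_toType, hDd]
  -- for each s the functions with index below s
  let E : S → Set (α → ℕ) := fun s =>
    (fun f : D => fun x => (f : α → ℕ) (e (s, x))) '' {f | w f ≤ (s : d.ord.ToType)}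
  have hE : ∀ s : S, ∃ h : α → ℕ, ∀ f ∈ E s, ∃ x, f x < h x := by
    intro s
    by_contra hno
    simp only [not_exists, not_forall, not_lt] at hno
    have h1 : d ≤ #(E s) := hmin (E s) (fun g => by
      obtain ⟨f, hf⟩ := hno g
      simp only [exists_prop] at hf
      exact ⟨f, hf.1, hf.2⟩)
    have h2 : #(E s) ≤ #(Iic (s : d.ord.ToType)) := by
      refine mk_image_le.trans ?_
      exact mk_le_of_injective (f := fun f : {f : D | w f ≤ (s : d.ord.ToType)} =>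
        (⟨w f, f.2⟩ : Iic (s : d.ord.ToType))) (fun a b hab =>
          Subtype.ext (w.injective (congrArg Subtype.val hab)))
    have h3 : #(Iic (s : d.ord.ToType)) < d := by
      rw [← Iio_insert]
      refine (mk_insert_le).trans_lt ?_
      exact add_lt_of_lt hd (mk_Iio_toType_ord_lt _) (one_lt_aleph0.trans_le hd)
    exact (h1.trans h2).not_gt h3
  choose h hh using hE
  obtain ⟨f, hf, hfh⟩ := hD (Function.extend e (fun p => h p.1 p.2) 0)
  obtain ⟨s, hs, hws⟩ := hS (w ⟨f, hf⟩)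
  obtain ⟨x, hx⟩ := hh ⟨s, hs⟩ _ ⟨⟨f, hf⟩, hws, rfl⟩
  have h2 := hfh (e (⟨s, hs⟩, x))
  rw [e.injective.extend_apply] at h2
  exact absurd (hx.trans_le h2) (lt_irrefl _)


theorem dn_le {μ : Cardinal.{u}} (hμ : ℵ₀ ≤ μ) (E : Set (μ.out → ℕ))
    (hE : ∀ g : μ.out → ℕ, ∃ f ∈ E, ∀ x, g x ≤ f x) : dnNat μ ≤ #E := by
  have h1 : #((fun f : μ.out → ℕ => fun x => f x + 1) '' E) ∈ {κ | ∃ D : Set (μ.out → ℕ), #D = κ ∧
      ∀ g : μ.out → ℕ, ∃ f ∈ D, #{x // f x ≤ g x} < μ} := by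
    refine ⟨_, rfl, fun g => ?_⟩
    obtain ⟨f, hf, hfg⟩ := hE g
    refine ⟨_, ⟨f, hf, rfl⟩, ?_⟩
    have : IsEmpty {x // f x + 1 ≤ g x} := ⟨fun x => by
      have h2 := hfg x.1
      have h3 := x.2
      omega⟩
    change #{x // f x + 1 ≤ g x} < μ
    rw [(mk_eq_zero_iff.2 this)]
    exact aleph0_pos.trans_le hμ
  exact (csInf_le' h1).trans mk_image_le

theorem dn_min {μ : Cardinal.{u}} (hcof : μ.ord.cof = ℵ₀) (hμ : ℵ₀ < μ) :
    ∃ D : Set (μ.out → ℕ), #D = dnNat μ ∧ (∀ g : μ.out → ℕ, ∃ f ∈ D, ∀ x, g x ≤ f x) ∧ True := by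
  obtain ⟨⟨D, hD1, hD2⟩, h3⟩ := exists_dn hμ.le
  obtain ⟨D', hD', hD'2⟩ := reduce (α := μ.out) (by rwa [mk_out]) (by rwa [mk_out]) D
    (by rwa [mk_out])
  have h4 : dnNat μ ≤ #D' := dn_le hμ.le D' hD'2
  -- `D'` is infinite
  have h5 : ℵ₀ ≤ dnNat μ := by
    by_contra hlt
    rw [not_le, ← hD1] at hlt
    have h6 := (lt_aleph0_iff_set_finite.1 hlt)
    obtain ⟨f, hf, hfg⟩ := hD2 (fun x => (∑ f ∈ h6.toFinset, f x))
    have h7 : ∀ x, f x ≤ ∑ f ∈ h6.toFinset, f x := fun x =>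
      Finset.single_le_sum (f := fun f : μ.out → ℕ => f x) (fun _ _ => Nat.zero_le _)
        (h6.mem_toFinset.2 hf)
    have h8 : #{x // f x ≤ ∑ f ∈ h6.toFinset, f x} = μ := by
      have h9 : #{x // f x ≤ ∑ f ∈ h6.toFinset, f x} = #(μ.out) :=
        mk_congr (Equiv.subtypeUnivEquiv h7)
      rw [h9, mk_out]
    exact absurd hfg (by rw [h8]; exact lt_irrefl _)
  have h6 : #D' ≤ dnNat μ := hD'.trans (by rw [hD1, mul_aleph0_eq h5])
  exact ⟨D', le_antisymm h6 h4, hD'2, trivial⟩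

theorem dn_cof {μ : Cardinal.{u}} (hcof : μ.ord.cof = ℵ₀) (hμ : ℵ₀ < μ) :
    μ < (dnNat μ).ord.cof := by
  obtain ⟨D', h4, hD'2, -⟩ := dn_min hcof hμ
  have h7 := everywhere_cof (α := μ.out) (by rw [mk_out]; exact hμ.le) (dnNat μ) D'
    h4 hD'2 (fun E hE => dn_le hμ.le E hE)
  rwa [mk_out] at h7

/-- The dominating number at `μ`. -/
def dominatingNumber (μ : Cardinal.{u}) : Cardinal.{u} :=
  sInf {c | ∃ D : Set (μ.ord.ToType → μ.ord.cof.ord.ToType), #D = c ∧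
    ∀ g : μ.ord.ToType → μ.ord.cof.ord.ToType, ∃ f ∈ D, #{x // f x ≤ g x} < μ}

theorem dn_eq {μ : Cardinal.{u}} (hcof : μ.ord.cof = ℵ₀) : dominatingNumber μ = dnNat μ := by
  obtain ⟨b⟩ : Nonempty (μ.ord.cof.ord.ToType ≃o ℕ) := by
    rw [hcof, ord_aleph0]
    have h1 : Ordinal.lift.{0} (Ordinal.type (α := (Ordinal.omega0.{u}).ToType) (· < ·)) =
        Ordinal.lift.{u} (Ordinal.type (α := ℕ) (· < ·)) := by
      simp
    obtain ⟨r⟩ := Ordinal.lift_type_eq.{u, 0, 0}.1 h1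
    exact ⟨OrderIso.ofRelIsoLT r⟩
  obtain ⟨a⟩ : Nonempty (μ.ord.ToType ≃ μ.out) := by
    rw [← Cardinal.eq, mk_ord_toType, mk_out]
  let E : (μ.ord.ToType → μ.ord.cof.ord.ToType) ≃ (μ.out → ℕ) := Equiv.arrowCongr a b.toEquiv
  have key : ∀ f g : μ.ord.ToType → μ.ord.cof.ord.ToType,
      #{x // f x ≤ g x} = #{x // E f x ≤ E g x} := by
    intro f g
    refine mk_congr (Equiv.subtypeEquiv a fun x => ?_)
    simp [E, Equiv.arrowCongr]
  unfold dominatingNumber dnNat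
  congr 1
  ext c
  constructor
  · rintro ⟨D, hD1, hD2⟩
    refine ⟨E '' D, by rw [mk_image_eq E.injective, hD1], fun g => ?_⟩
    obtain ⟨f, hf, hfg⟩ := hD2 (E.symm g)
    refine ⟨E f, ⟨f, hf, rfl⟩, ?_⟩
    rw [key, E.apply_symm_apply] at hfg
    exact hfg
  · rintro ⟨D, hD1, hD2⟩
    refine ⟨E.symm '' D, by rw [mk_image_eq E.symm.injective, hD1], fun g => ?_⟩
    obtain ⟨f, hf, hfg⟩ := hD2 (E g)
    refine ⟨E.symm f, ⟨f, hf, rfl⟩, ?_⟩
    rw [key, E.apply_symm_apply]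
    exact hfg

end H624DM
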