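import Mathlib

open Cardinal Set MeasureTheory Filter unitInterval

noncomputable section

namespace H624DN

/-- few functions separate infinite families of subsets of `ℕ` -/
def Sep (m : Cardinal.{0}) : Prop :=
  ∃ (J : Type) (G : Set ℕ → J → ℕ), #J ≤ m ∧ ∀ F : J → ℕ, {T : Set ℕ | ∀ j, G T j ≤ F j}.Finite

open Classical in
def cut (T : Set ℕ) (n : ℕ) : Finset ℕ := (Finset.range n).filter (· ∈ T)

theorem cut_ne {T T' : Set ℕ} (h : T ≠ T') : ∀ᶠ n in atTop, cut T n ≠ cut T' n := by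
  classical
  have h1 : ∃ a, ¬ (a ∈ T ↔ a ∈ T') := by
    by_contra hcon
    push Not at hcon
    exact h (Set.ext hcon)
  obtain ⟨a, ha⟩ := h1
  filter_upwards [eventually_gt_atTop a] with n hn heq
  apply ha
  have h2 : a ∈ cut T n ↔ a ∈ cut T' n := by rw [heq]
  simpa [cut, hn] using h2

abbrev Om := ℕ × Finset ℕ → I

def P : Measure Om := Measure.infinitePi (fun _ => (volume : Measure I))

instance : IsProbabilityMeasure P := by unfold P; infer_instance

def thr (k : ℕ) : I := ⟨(1 / 2) ^ k, by positivity, pow_le_one₀ (by norm_num) (by norm_num)⟩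

def hit (T : Set ℕ) (b : ℕ → ℕ) (k : ℕ) : Set Om := {y | y (k, cut T (b k)) < thr k}

theorem P_hit (T : Set ℕ) (b : ℕ → ℕ) (k : ℕ) : P (hit T b k) = ENNReal.ofReal ((1 / 2) ^ k) := by
  have h1 : hit T b k = Set.pi (({(k, cut T (b k))} : Finset (ℕ × Finset ℕ)) : Set _)
      (fun _ => Iio (thr k)) := by
    ext y
    simp [hit]
  rw [h1, P, Measure.infinitePi_pi _ (fun i _ => measurableSet_Iio)]
  simp [unitInterval.volume_Iio, thr]

theorem ae_hit (T : Set ℕ) (b : ℕ → ℕ) : ∀ᵐ y ∂P, ∀ᶠ k in atTop, y ∉ hit T b k := by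
  refine ae_eventually_notMem ?_
  simp only [P_hit]
  exact summable_geometric_two.tsum_ofReal_ne_top

/-- the box -/
theorem P_box (T : ℕ → Set ℕ) (b : ℕ → ℕ) (K : Finset ℕ)
    (hK : ∀ k ∈ K, ∀ i < 2 ^ k, ∀ j < 2 ^ k, cut (T i) (b k) = cut (T j) (b k) → i = j) :
    P {y | ∀ k ∈ K, ∀ i, y ∉ hit (T i) b k} ≤ ENNReal.ofReal (Real.exp (-1)) ^ K.card := by
  classical
  let S : Finset (Σ _ : ℕ, ℕ) := K.sigma (fun k => Finset.range (2 ^ k))
  let e : (Σ _ : ℕ, ℕ) → ℕ × Finset ℕ := fun p => (p.1, cut (T p.2) (b p.1))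
  have hinj : Set.InjOn e S := by
    rintro ⟨k, i⟩ hp ⟨l, j⟩ hq hpq
    simp only [S, Finset.coe_sigma, Set.mem_sigma_iff, Finset.mem_coe, Finset.mem_range] at hp hq
    simp only [e, Prod.mk.injEq] at hpq
    obtain ⟨rfl, h2⟩ := hpq
    rw [hK k hp.1 i hp.2 j hq.2 h2]
  have hsub : {y | ∀ k ∈ K, ∀ i, y ∉ hit (T i) b k} ⊆
      Set.pi ((S.image e : Finset (ℕ × Finset ℕ)) : Set _) (fun p => Ici (thr p.1)) := by
    intro y hy p hp
    simp only [Finset.coe_image, Set.mem_image] at hp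
    obtain ⟨⟨k, i⟩, hki, rfl⟩ := hp
    simp only [S, Finset.coe_sigma, Set.mem_sigma_iff, Finset.mem_coe, Finset.mem_range] at hki
    have := hy k hki.1 i
    simpa [hit, e] using this
  refine (measure_mono hsub).trans ?_
  rw [P, Measure.infinitePi_pi _ (fun i _ => measurableSet_Ici), Finset.prod_image hinj,
    Finset.prod_sigma, ← Finset.prod_const]
  refine Finset.prod_le_prod' fun k hk => ?_
  simp only [unitInterval.volume_Ici, e, thr, Finset.prod_const, Finset.card_range]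
  have h0 : (0 : ℝ) ≤ 1 - (1 / 2) ^ k := by
    have : ((1 : ℝ) / 2) ^ k ≤ 1 := pow_le_one₀ (by norm_num) (by norm_num)
    linarith
  rw [← ENNReal.ofReal_pow h0]
  refine ENNReal.ofReal_le_ofReal ?_
  have h1 : (1 : ℝ) - (1 / 2) ^ k ≤ Real.exp (-((1 / 2) ^ k)) := by
    have := Real.add_one_le_exp (-(((1 : ℝ) / 2) ^ k))
    linarith
  calc ((1 : ℝ) - (1 / 2) ^ k) ^ 2 ^ k ≤ (Real.exp (-((1 / 2) ^ k))) ^ 2 ^ k :=
        pow_le_pow_left₀ h0 h1 _
    _ = Real.exp (-1) := by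
        rw [← Real.exp_nat_mul]
        congr 1
        push_cast
        rw [mul_neg, ← mul_pow]
        norm_num

theorem P_null (T : ℕ → Set ℕ) (b : ℕ → ℕ) (m : ℕ)
    (h : ∃ᶠ k in atTop, ∀ i < 2 ^ k, ∀ j < 2 ^ k, cut (T i) (b k) = cut (T j) (b k) → i = j) :
    P {y | ∀ k ≥ m, ∀ i, y ∉ hit (T i) b k} = 0 := by
  have h1 : ∀ n : ℕ, P {y | ∀ k ≥ m, ∀ i, y ∉ hit (T i) b k} ≤
      ENNReal.ofReal (Real.exp (-1)) ^ n := by
    intro n
    have hinf : {k | m ≤ k ∧ ∀ i < 2 ^ k, ∀ j < 2 ^ k,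
        cut (T i) (b k) = cut (T j) (b k) → i = j}.Infinite := by
      rw [← Nat.frequently_atTop_iff_infinite]
      exact (h.and_eventually (eventually_ge_atTop m)).mono fun k hk => ⟨hk.2, hk.1⟩
    obtain ⟨K, hK, hKc⟩ := hinf.exists_subset_card_eq n
    rw [← hKc]
    refine le_trans (measure_mono ?_) (P_box T b K fun k hk => (hK hk).2)
    intro y hy k hk
    exact hy k (hK hk).1
  refine le_antisymm ?_ bot_le
  refine ge_of_tendsto' (ENNReal.tendsto_pow_atTop_nhds_zero_of_lt_one ?_) h1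
  rw [ENNReal.ofReal_lt_one]
  have h2 := Real.exp_lt_exp.2 (show (-1 : ℝ) < 0 by norm_num)
  simpa using h2

theorem sep_of {m : Cardinal.{0}} (hm : ℵ₀ ≤ m) (B : Set (ℕ → ℕ)) (hB : #B ≤ m)
    (hunb : ¬ ∃ h : ℕ → ℕ, ∀ b ∈ B, ∀ᶠ k in atTop, b k ≤ h k) (Y₀ : Set I) (hY : #Y₀ ≤ m)
    (hYn : volume Y₀ ≠ 0) : Sep m := by
  classical
  obtain ⟨φ, hφm, hφ⟩ := Measure.exists_measurable_map_eq P
  let Y : Set Om := φ '' Y₀
  have hYP : P Y ≠ 0 := by
    intro h0
    apply hYn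
    rw [← hφ] at h0
    exact measure_mono_null (subset_preimage_image φ Y₀)
      (Measure.preimage_null_of_map_null hφm.aemeasurable h0)
  refine ⟨B × Y, fun T j => sInf {n | ∀ k ≥ n, (j.2 : Om) ∉ hit T j.1 k}, ?_, fun F => ?_⟩
  · rw [mk_prod, lift_id, lift_id]
    exact (mul_le_mul' hB (mk_image_le.trans hY)).trans (mul_eq_self hm).le
  · by_contra hinf
    let T' : ℕ ↪ _ := Set.Infinite.natEmbedding _ hinf
    let T : ℕ → Set ℕ := fun i => (T' i : Set ℕ)
    have hT : Function.Injective T := fun i j hij => T'.injective (Subtype.ext hij)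
    have hTF : ∀ i j, sInf {n | ∀ k ≥ n, ((j : B × Y).2 : Om) ∉ hit (T i) j.1 k} ≤ F j :=
      fun i j => (T' i).2 j
    have hev : ∀ k : ℕ, ∀ᶠ n in atTop, ∀ i ∈ Finset.range (2 ^ k), ∀ j ∈ Finset.range (2 ^ k),
        cut (T i) n = cut (T j) n → i = j := by
      intro k
      rw [Filter.eventually_all_finset]
      intro i _
      rw [Filter.eventually_all_finset]
      intro j _
      by_cases hij : i = j
      · exact Filter.Eventually.of_forall fun _ _ => hij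
      · filter_upwards [cut_ne (fun h => hij (hT h))] with n hn h
        exact absurd h hn
    choose h hh using fun k => (eventually_atTop.1 (hev k))
    have hb : ∃ b ∈ B, ∃ᶠ k in atTop, h k < b k := by
      by_contra hno
      apply hunb
      refine ⟨h, fun b hbB => ?_⟩
      by_contra hne
      exact hno ⟨b, hbB, by
        rw [Filter.not_eventually] at hne
        simpa using hne⟩
    obtain ⟨b, hbB, hfreq⟩ := hb
    have hcov : Y ⊆ ⋃ m : ℕ, {y | ∃ hy : y ∈ Y, F (⟨b, hbB⟩, ⟨y, hy⟩) ≤ m} := fun y hy =>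
      mem_iUnion.2 ⟨F (⟨b, hbB⟩, ⟨y, hy⟩), hy, le_rfl⟩
    obtain ⟨m₀, hm₀⟩ : ∃ m₀ : ℕ, P {y | ∃ hy : y ∈ Y, F (⟨b, hbB⟩, ⟨y, hy⟩) ≤ m₀} ≠ 0 := by
      by_contra hno
      push Not at hno
      exact hYP (measure_mono_null hcov (measure_iUnion_null hno))
    apply hm₀
    have hae : ∀ᵐ y ∂P, ∀ i, ∀ᶠ k in atTop, y ∉ hit (T i) b k :=
      ae_all_iff.2 fun i => ae_hit (T i) b
    have hnull := P_null T b m₀ (hfreq.mono fun k hk i hi j hj hij =>
      hh k (b k) hk.le i (Finset.mem_range.2 hi) j (Finset.mem_range.2 hj) hij)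
    have hsub : {y | ∃ hy : y ∈ Y, F (⟨b, hbB⟩, ⟨y, hy⟩) ≤ m₀} ⊆
        {y | ∀ k ≥ m₀, ∀ i, y ∉ hit (T i) b k} ∪ {y | ¬ ∀ i, ∀ᶠ k in atTop, y ∉ hit (T i) b k} := by
      rintro y ⟨hy, hFy⟩
      by_cases hgood : ∀ i, ∀ᶠ k in atTop, y ∉ hit (T i) b k
      · left
        intro k hk i
        have hne : {n | ∀ k ≥ n, y ∉ hit (T i) b k}.Nonempty := eventually_atTop.1 (hgood i)
        have h1 := Nat.sInf_mem hne
        have h2 := hTF i (⟨b, hbB⟩, ⟨y, hy⟩)
        exact h1 k ((h2.trans hFy).trans hk)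
      · exact Or.inr hgood
    exact measure_mono_null hsub (measure_union_null hnull (ae_iff.1 hae))

end H624DN
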