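import Pool.Agent.H624.DM.Base
import Pool.Agent.H624.DM.Meas

/-! Dominating numbers at singular cardinals of countable cofinality, below the continuum. -/

open Cardinal Set

noncomputable section

namespace H624DN

open H624DM

/-- the main counting lemma -/
theorem count {α β : Type} {ρ : Cardinal.{0}} (hα : ℵ₀ ≤ #α) (hS : Sep #α)
    (hH : Hit #α β (Order.succ ρ))
    (D : Set (α → ℕ)) (hD : ∀ g : α → ℕ, ∃ f ∈ D, ∀ x, g x ≤ f x) :
    (2 : Cardinal.{0}) ^ #β ≤ #D * 2 ^ ρ := by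
  classical
  obtain ⟨C, hC, hCc, hhit⟩ := hH
  obtain ⟨J, G, hJ, hG⟩ := hS
  have hJ' : #(C × J) ≤ #α := by
    rw [mk_prod, lift_id, lift_id]
    exact (mul_le_mul' hC hJ).trans (mul_eq_self hα).le
  obtain ⟨e⟩ : Nonempty ((C × J) ↪ α) := by
    rwa [Cardinal.le_def] at hJ'
  have henc : ∀ A : C, ∃ c : β → ℕ, InjOn c (A : Set β) := fun A =>
    Set.countable_iff_exists_injOn.1 (hCc A.1 A.2)
  choose c hc using henc
  -- the functions
  let tr : (A : C) → Set β → Set ℕ := fun A S => c A '' (S ∩ A)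
  let g : Set β → α → ℕ := fun S => Function.extend e (fun p => G (tr p.1 S) p.2) 0
  have hge : ∀ S p, g S (e p) = G (tr p.1 S) p.2 := fun S p => e.injective.extend_apply _ _ _
  let 𝒮 : (α → ℕ) → Set (Set β) := fun f => {S | ∀ x, g S x ≤ f x}
  -- finitely many traces
  have hfin : ∀ (f : α → ℕ) (A : C), (tr A '' 𝒮 f).Finite := by
    intro f A
    refine (hG (fun j => f (e (A, j)))).subset ?_
    rintro _ ⟨S, hS, rfl⟩ j
    have := hS (e (A, j))
    rwa [hge] at this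
  have hcard : ∀ f : α → ℕ, #(𝒮 f) ≤ 2 ^ ρ := by
    intro f
    let F : β → Set (Set β) := fun x => {S | S ∈ 𝒮 f ∧ x ∈ S}
    obtain ⟨X, -, hXb⟩ := Set.exists_subset_bijOn (univ : Set β) F
    have hXρ : #X ≤ ρ := by
      by_contra hlt
      rw [not_le] at hlt
      obtain ⟨A, hA, hXA⟩ := hhit X (Order.succ_le_of_lt hlt)
      apply hXA
      have hFA : (F '' A).Finite := by
        have hpw : (𝒫 (tr ⟨A, hA⟩ '' 𝒮 f)).Finite := (hfin f ⟨A, hA⟩).finite_subsets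
        refine (hpw.image (fun U => {S | S ∈ 𝒮 f ∧ tr ⟨A, hA⟩ S ∈ U})).subset ?_
        rintro _ ⟨x, hx, rfl⟩
        refine ⟨{t | t ∈ tr ⟨A, hA⟩ '' 𝒮 f ∧ c ⟨A, hA⟩ x ∈ t}, fun t ht => ht.1, ?_⟩
        ext S
        simp only [mem_ofPred_eq, F]
        constructor
        · rintro ⟨h1, -, h2⟩
          refine ⟨h1, ?_⟩
          obtain ⟨y, ⟨hy1, hy2⟩, hyx⟩ := h2
          rwa [← hc ⟨A, hA⟩ hy2 hx hyx]
        · rintro ⟨h1, h2⟩
          exact ⟨h1, ⟨S, h1, rfl⟩, ⟨x, ⟨h2, hx⟩, rfl⟩⟩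
      have hinj : InjOn F (X ∩ A) := hXb.injOn.mono inter_subset_left
      exact Set.Finite.of_finite_image (hFA.subset (image_mono inter_subset_right)) hinj
    have hinj2 : InjOn (fun S : Set β => (Subtype.val ⁻¹' S : Set X)) (𝒮 f) := by
      intro S hS S' hS' heq
      have key : ∀ S₁ S₂, S₁ ∈ 𝒮 f → S₂ ∈ 𝒮 f →
          (Subtype.val ⁻¹' S₁ : Set X) = Subtype.val ⁻¹' S₂ → S₁ ⊆ S₂ := by
        intro S₁ S₂ h1 h2 h12 x hx
        obtain ⟨y, hy, hyx⟩ := hXb.surjOn ⟨x, mem_univ x, rfl⟩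
        have h3 : S₁ ∈ F y := by
          rw [hyx]
          exact ⟨h1, hx⟩
        have h4 : (⟨y, hy⟩ : X) ∈ (Subtype.val ⁻¹' S₁ : Set X) := h3.2
        rw [h12] at h4
        have h5 : S₂ ∈ F y := ⟨h2, h4⟩
        rw [hyx] at h5
        exact h5.2
      exact Subset.antisymm (key S S' hS hS' heq) (key S' S hS' hS heq.symm)
    calc #(𝒮 f) ≤ #(Set X) := mk_le_of_injective (f := fun S : 𝒮 f =>
            (Subtype.val ⁻¹' (S : Set β) : Set X))
            (fun S S' h => Subtype.ext (hinj2 S.2 S'.2 h))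
      _ = 2 ^ #X := mk_set
      _ ≤ 2 ^ ρ := power_le_power_left two_ne_zero hXρ
  have hcov : (⋃ f : D, 𝒮 f) = (univ : Set (Set β)) := by
    refine eq_univ_of_forall fun S => ?_
    obtain ⟨f, hf, hfg⟩ := hD (g S)
    exact mem_iUnion.2 ⟨⟨f, hf⟩, hfg⟩
  calc (2 : Cardinal.{0}) ^ #β = #(Set β) := mk_set.symm
    _ = #(univ : Set (Set β)) := mk_univ.symm
    _ = #(⋃ f : D, 𝒮 f : Set (Set β)) := by rw [hcov]
    _ ≤ Cardinal.sum (fun f : D => #(𝒮 f)) := mk_iUnion_le_sum_mk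
    _ ≤ Cardinal.sum (fun _ : D => (2 : Cardinal.{0}) ^ ρ) := sum_le_sum _ _ (fun f => hcard f)
    _ = #D * 2 ^ ρ := by simp

theorem count0 {α : Type} (hS : Sep #α)
    (D : Set (α → ℕ)) (hD : ∀ g : α → ℕ, ∃ f ∈ D, ∀ x, g x ≤ f x) :
    continuum ≤ #D := by
  classical
  obtain ⟨J, G, hJ, hG⟩ := hS
  obtain ⟨e⟩ : Nonempty (J ↪ α) := by
    rwa [Cardinal.le_def] at hJ
  let g : Set ℕ → α → ℕ := fun T => Function.extend e (G T) 0
  have hge : ∀ T p, g T (e p) = G T p := fun T p => e.injective.extend_apply _ _ _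
  have hcov : (⋃ f : D, {T | ∀ x, g T x ≤ (f : α → ℕ) x}) = (univ : Set (Set ℕ)) := by
    refine eq_univ_of_forall fun S => ?_
    obtain ⟨f, hf, hfg⟩ := hD (g S)
    exact mem_iUnion.2 ⟨⟨f, hf⟩, hfg⟩
  have h1 : ∀ f : α → ℕ, #{T | ∀ x, g T x ≤ f x} ≤ ℵ₀ := by
    intro f
    have h2 : {T | ∀ x, g T x ≤ f x}.Finite := by
      refine (hG (fun j => f (e j))).subset fun T hT j => ?_
      have := hT (e j)
      rwa [hge] at this
    exact (lt_aleph0_iff_set_finite.2 h2).le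
  have h3 : (continuum : Cardinal.{0}) ≤ #D * ℵ₀ := by
    calc (continuum : Cardinal.{0}) = #(Set ℕ) := by simp
      _ = #(univ : Set (Set ℕ)) := mk_univ.symm
      _ = #(⋃ f : D, {T | ∀ x, g T x ≤ (f : α → ℕ) x} : Set (Set ℕ)) := by rw [hcov]
      _ ≤ Cardinal.sum (fun f : D => #{T | ∀ x, g T x ≤ (f : α → ℕ) x}) := mk_iUnion_le_sum_mk
      _ ≤ Cardinal.sum (fun _ : D => ℵ₀) := sum_le_sum _ _ (fun f => h1 f)
      _ = #D * ℵ₀ := by simp
  exact le_of_le_mul aleph0_le_continuum h3 aleph0_lt_continuum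

/-- existence of hitting families -/
theorem hit_main {m : Cardinal.{0}} (hm : ℵ₀ ≤ m) (lam : Cardinal.{0}) :
    ℵ₀ < lam → lam ≤ m →
      (∀ κ ≤ lam, κ = ℵ_ κ.ord → ∀ ν < κ, Hit m ν.ord.ToType ℵ₀) →
      ∃ ρ < lam, Hit m lam.ord.ToType (Order.succ ρ) := by
  induction lam using WellFoundedLT.induction with
  | ind lam ih =>
  intro hωlam h2 hfix
  by_cases hfp : lam = ℵ_ lam.ord
  · refine ⟨ℵ₀, hωlam, hit_segments hm (by rwa [mk_ord_toType]) (fun i => ?_) pig0⟩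
    obtain ⟨e⟩ := Cardinal.le_def _ _ |>.1 (mk_ord_toType (#(Iio i))).ge
    exact hit_of_inj e (hfix lam le_rfl hfp _ (mk_Iio_toType_ord_lt i))
  obtain ⟨δ, hδ⟩ := mem_range_aleph_iff.2 hωlam.le
  have hδ1 : δ < lam.ord := by
    have h3 : δ ≤ lam.ord := by
      rw [← hδ, ord_aleph]
      exact Ordinal.le_omega_self δ
    refine lt_of_le_of_ne h3 fun h4 => hfp ?_
    rw [← h4, hδ]
  have hδ2 : δ.card < lam := lt_ord.1 hδ1
  set ρ₀ := max δ.card ℵ₀ with hρ₀
  have hρlam : ρ₀ < lam := max_lt hδ2 hωlam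
  have hρω : ℵ₀ ≤ ρ₀ := le_max_right _ _
  have hsl : Order.succ ρ₀ ≤ lam := Order.succ_le_of_lt hρlam
  have hA : Hit m (Order.succ ρ₀).ord.ToType (Order.succ ρ₀) := by
    rcases hρω.eq_or_lt with hc | hc
    · -- the case of `ω₁`
      refine hit_segments hm (by rw [mk_ord_toType]; exact hsl.trans h2) (σ := ℵ₀)
        (fun i => ?_) ?_
      · refine ⟨{Set.univ}, ?_, ?_, fun X hX => ⟨_, rfl, ?_⟩⟩
        · rw [mk_singleton]
          exact one_le_aleph0.trans hm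
        · rintro A rfl
          have h5 : #(Iio i) ≤ ℵ₀ := by
            rw [hc]
            exact Order.le_of_lt_succ (mk_Iio_toType_ord_lt i)
          have : Countable (Iio i) := mk_le_aleph0_iff.1 h5
          exact Set.countable_univ
        · rw [inter_univ]
          rw [← Set.infinite_coe_iff]
          exact Cardinal.infinite_iff.2 hX
      · rw [← hc]
        exact pig0
    · obtain ⟨ρ, hρ, hH⟩ := ih ρ₀ hρlam hc (hρlam.le.trans h2)
        (fun κ hκ => hfix κ (hκ.trans hρlam.le))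
      refine Hit.mono (σ := Order.succ ρ) ?_ (Order.succ_le_succ hρ.le)
      refine hit_segments hm (by rw [mk_ord_toType]; exact hsl.trans h2) (σ := Order.succ ρ)
        (fun i => ?_) ?_
      · have h5 : #(Iio i) ≤ #(ρ₀.ord.ToType) := by
          rw [mk_ord_toType]
          exact Order.le_of_lt_succ (mk_Iio_toType_ord_lt i)
        obtain ⟨e⟩ := Cardinal.le_def _ _ |>.1 h5
        exact hit_of_inj e hH
      · refine pig1 ?_
        rw [Ordinal.cof_toType, (isRegular_succ hρω).cof_ord]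
        exact (Order.succ_le_of_lt hρ).trans_lt (Order.lt_succ _)
  have hB : ∀ ν : Cardinal.{0}, Order.succ ρ₀ ≤ ν → ν ≤ lam →
      Hit m ν.ord.ToType (Order.succ ρ₀) := by
    intro ν
    induction ν using WellFoundedLT.induction with
    | ind ν ihν =>
    intro h5 h6
    rcases h5.eq_or_lt with h7 | h7
    · rw [← h7]
      exact hA
    refine hit_segments hm (by rw [mk_ord_toType]; exact h6.trans h2) (σ := Order.succ ρ₀)
      (fun i => ?_) ?_
    · rcases lt_or_ge (#(Iio i)) (Order.succ ρ₀) with h8 | h8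
      · exact hit_vac h8
      · have h9 := ihν (#(Iio i)) (mk_Iio_toType_ord_lt i) h8 ((mk_Iio_toType_ord_lt i).le.trans h6)
        obtain ⟨e⟩ := Cardinal.le_def _ _ |>.1 (mk_ord_toType (#(Iio i))).ge
        exact hit_of_inj e h9
    · obtain ⟨η, hη⟩ := mem_range_aleph_iff.2 ((hρω.trans (Order.le_succ _)).trans h5)
      have hηδ : η ≤ δ := by
        rw [← aleph_le_aleph, hη, hδ]
        exact h6
      have hcof : Order.cof ν.ord.ToType = (Ordinal.omega η).cof := by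
        rw [Ordinal.cof_toType, ← hη, ord_aleph]
      rcases Ordinal.zero_or_succ_or_isSuccLimit η with h8 | ⟨a, h8⟩ | h8
      · exfalso
        rw [h8, aleph_zero] at hη
        rw [← hη] at h7
        exact (h7.trans_le hρω).not_ge (Order.le_succ _)
      · refine pig1 ?_
        have h9 : (Ordinal.omega η).cof = ν := by
          rw [← hη, ← h8, ← Ordinal.add_one_eq_succ, cof_omega_add_one]
        rw [hcof, h9]
        exact h7
      · refine pig2 hρω ?_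
        rw [hcof, Ordinal.cof_omega h8]
        exact (Ordinal.cof_le_card η).trans ((Ordinal.card_le_card hηδ).trans (le_max_left _ _))
  exact ⟨ρ₀, hρlam, hB lam hsl le_rfl⟩

theorem big {α : Type} (hα : ℵ₀ ≤ #α) (hS : Sep #α)
    (D : Set (α → ℕ)) (hD : ∀ g : α → ℕ, ∃ f ∈ D, ∀ x, g x ≤ f x) (lam : Cardinal.{0}) :
    ℵ₀ ≤ lam → lam ≤ #α → (∀ κ ≤ lam, κ = ℵ_ κ.ord → ∀ ν < κ, Hit #α ν.ord.ToType ℵ₀) →
      (2 : Cardinal.{0}) ^ lam ≤ #D := by
  induction lam using WellFoundedLT.induction with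
  | ind lam ih =>
  intro h1 h2 hfix
  have h2lam : ℵ₀ ≤ (2 : Cardinal.{0}) ^ lam := h1.trans (cantor lam).le
  rcases h1.eq_or_lt with hlc | hlt
  · rw [← hlc, two_power_aleph0]
    exact count0 hS D hD
  · obtain ⟨ρ, hρ, hH⟩ := hit_main hα lam hlt h2 hfix
    have h3 := count hα hS hH D hD
    rw [mk_ord_toType] at h3
    have h4 := ih (max ρ ℵ₀) (max_lt hρ hlt) (le_max_right _ _)
      ((max_lt hρ hlt).le.trans h2) (fun κ hκ => hfix κ (hκ.trans (max_lt hρ hlt).le))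
    have h5 : (2 : Cardinal.{0}) ^ ρ ≤ #D :=
      (power_le_power_left two_ne_zero (le_max_left _ _)).trans h4
    have h6 : ℵ₀ ≤ #D := ((le_max_right ρ _).trans (cantor _).le).trans h4
    exact h3.trans ((mul_le_mul' le_rfl h5).trans (mul_eq_self h6).le)

theorem dn_main {μ : Cardinal.{0}} (hcof : μ.ord.cof = ℵ₀) (hμ : ℵ₀ < μ) (hS : Sep μ)
    (lam : Cardinal.{0}) (hc : ℵ₀ ≤ lam) (hlam : lam ≤ μ)
    (hfix : ∀ κ ≤ lam, κ = ℵ_ κ.ord → ∀ ν < κ, Hit μ ν.ord.ToType ℵ₀) : 2 ^ lam ≤ dnNat μ := by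
  obtain ⟨D, hD1, hD2, -⟩ := dn_min hcof hμ
  rw [← hD1]
  exact big (α := μ.out) (by rw [mk_out]; exact hμ.le) (by rwa [mk_out]) D hD2 lam hc
    (by rwa [mk_out]) (by rwa [mk_out])

theorem dn_hit {μ : Cardinal.{0}} (hcof : μ.ord.cof = ℵ₀) (hμ : ℵ₀ < μ) (hS : Sep μ)
    (ρ : Cardinal.{0}) (hH : Hit μ μ.out (Order.succ ρ)) :
    2 ^ μ ≤ dnNat μ * 2 ^ ρ := by
  obtain ⟨D, hD1, hD2, -⟩ := dn_min hcof hμ
  have h4 := count (α := μ.out) (β := μ.out) (ρ := ρ) (by rw [mk_out]; exact hμ.le)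
    (by rwa [mk_out]) (by rwa [mk_out]) D hD2
  rwa [mk_out, hD1] at h4

end H624DN
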