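import Pool.Agent.H624.DM.Below

/-! The finite form of the counting lemma. -/

open Cardinal Set

noncomputable section

namespace H624DN

open H624DM

theorem count_fin {α β : Type} (hα : ℵ₀ ≤ #α) (hS : Sep #α) (hH : Hit #α β ℵ₀) :
    ∃ g : Set β → α → ℕ, ∀ f : α → ℕ, {S | ∀ x, g S x ≤ f x}.Finite := by
  classical
  obtain ⟨C, hC, hCc, hhit⟩ := hH
  obtain ⟨J, G, hJ, hG⟩ := hS
  have hJ' : #(C × J) ≤ #α := by
    rw [mk_prod, lift_id, lift_id]
    exact (mul_le_mul' hC hJ).trans (mul_eq_self hα).le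
  obtain ⟨e⟩ : Nonempty ((C × J) ↪ α) := by
    rwa [Cardinal.le_def] at hJ'
  have henc : ∀ A : C, ∃ c : β → ℕ, InjOn c (A : Set β) := fun A =>
    Set.countable_iff_exists_injOn.1 (hCc A.1 A.2)
  choose c hc using henc
  -- the functions
  let tr : (A : C) → Set β → Set ℕ := fun A S => c A '' (S ∩ A)
  let g : Set β → α → ℕ := fun S => Function.extend e (fun p => G (tr p.1 S) p.2) 0
  have hge : ∀ S p, g S (e p) = G (tr p.1 S) p.2 := fun S p => e.injective.extend_apply _ _ _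
  let 𝒮 : (α → ℕ) → Set (Set β) := fun f => {S | ∀ x, g S x ≤ f x}
  -- finitely many traces
  have hfin : ∀ (f : α → ℕ) (A : C), (tr A '' 𝒮 f).Finite := by
    intro f A
    refine (hG (fun j => f (e (A, j)))).subset ?_
    rintro _ ⟨S, hS, rfl⟩ j
    have := hS (e (A, j))
    rwa [hge] at this
  refine ⟨g, fun f => ?_⟩
  let F : β → Set (Set β) := fun x => {S | S ∈ 𝒮 f ∧ x ∈ S}
  obtain ⟨X, -, hXb⟩ := Set.exists_subset_bijOn (univ : Set β) F
  have hXf : X.Finite := by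
    by_contra hlt
    have hX' : ℵ₀ ≤ #X := by
      have : Infinite X := Set.infinite_coe_iff.2 hlt
      exact Cardinal.infinite_iff.1 this
    obtain ⟨A, hA, hXA⟩ := hhit X hX'
    apply hXA
    have hFA : (F '' A).Finite := by
      have hpw : (𝒫 (tr ⟨A, hA⟩ '' 𝒮 f)).Finite := (hfin f ⟨A, hA⟩).finite_subsets
      refine (hpw.image (fun U => {S | S ∈ 𝒮 f ∧ tr ⟨A, hA⟩ S ∈ U})).subset ?_
      rintro _ ⟨x, hx, rfl⟩
      refine ⟨{t | t ∈ tr ⟨A, hA⟩ '' 𝒮 f ∧ c ⟨A, hA⟩ x ∈ t}, fun t ht => ht.1, ?_⟩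
      ext S
      simp only [mem_ofPred_eq, F]
      constructor
      · rintro ⟨h1, -, h2⟩
        refine ⟨h1, ?_⟩
        obtain ⟨y, ⟨hy1, hy2⟩, hyx⟩ := h2
        rwa [← hc ⟨A, hA⟩ hy2 hx hyx]
      · rintro ⟨h1, h2⟩
        exact ⟨h1, ⟨S, h1, rfl⟩, ⟨x, ⟨h2, hx⟩, rfl⟩⟩
    have hinj : InjOn F (X ∩ A) := hXb.injOn.mono inter_subset_left
    exact Set.Finite.of_finite_image (hFA.subset (image_mono inter_subset_right)) hinj
  have hinj2 : InjOn (fun S : Set β => S ∩ X) (𝒮 f) := by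
    intro S hS S' hS' heq
    have key : ∀ S₁ S₂, S₁ ∈ 𝒮 f → S₂ ∈ 𝒮 f → S₁ ∩ X = S₂ ∩ X → S₁ ⊆ S₂ := by
      intro S₁ S₂ h1 h2 h12 x hx
      obtain ⟨y, hy, hyx⟩ := hXb.surjOn ⟨x, mem_univ x, rfl⟩
      have h3 : S₁ ∈ F y := by
        rw [hyx]
        exact ⟨h1, hx⟩
      have h4 : y ∈ S₁ ∩ X := ⟨h3.2, hy⟩
      rw [h12] at h4
      have h5 : S₂ ∈ F y := ⟨h2, h4.1⟩
      rw [hyx] at h5
      exact h5.2
    exact Subset.antisymm (key S S' hS hS' heq) (key S' S hS' hS heq.symm)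
  refine Set.Finite.of_finite_image (hXf.finite_subsets.subset ?_) hinj2
  rintro _ ⟨S, -, rfl⟩
  exact inter_subset_right

theorem hit_omega1 {m : Cardinal.{0}} (hm : ℵ₁ ≤ m) :
    Hit m (ℵ₁ : Cardinal.{0}).ord.ToType ℵ₀ := by
  refine ⟨range (fun i : (ℵ₁ : Cardinal.{0}).ord.ToType => Iio i), ?_, ?_, fun X hX => ?_⟩
  · exact mk_range_le.trans ((mk_ord_toType _).trans_le hm)
  · rintro _ ⟨i, rfl⟩
    have h1 : #(Iio i) < ℵ₁ := mk_Iio_toType_ord_lt i
    have h2 : #(Iio i) < Order.succ ℵ₀ := h1.trans_eq succ_aleph0.symm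
    exact mk_le_aleph0_iff.1 (Order.lt_succ_iff.1 h2)
  · have hX' : X.Infinite := by
      rw [← Set.infinite_coe_iff]
      exact Cardinal.infinite_iff.2 hX
    let f := Set.Infinite.natEmbedding X hX'
    let Y : Set (ℵ₁ : Cardinal.{0}).ord.ToType := range fun n => (f n : (ℵ₁ : Cardinal.{0}).ord.ToType)
    have hYinf : Y.Infinite :=
      Set.infinite_range_of_injective (fun a b hab => f.injective (Subtype.ext hab))
    have hnc : ¬ IsCofinal Y := by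
      intro hc
      have h1 := Order.cof_le hc
      rw [Ordinal.cof_toType, isRegular_aleph_one.cof_ord] at h1
      have h2 : #Y ≤ ℵ₀ := (countable_range _).le_aleph0
      exact (aleph0_lt_aleph_one.trans_le (h1.trans h2)).false
    simp only [IsCofinal, not_forall, not_exists, not_and, not_le] at hnc
    obtain ⟨i, hi⟩ := hnc
    refine ⟨Iio i, ⟨i, rfl⟩, hYinf.mono ?_⟩
    rintro _ ⟨n, rfl⟩
    exact ⟨(f n).2, hi _ ⟨n, rfl⟩⟩

end H624DN
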